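import Mathlib
import Pool.Agent.H397R2.PP.D5
import Pool.Agent.H397R2.PP.TH
import Pool.Agent.H397R2.PP.VAN

/-!
# Parity of the partition function (MP_ebc808_nt): even values

For every integer `x ≥ 2`, at least `√x log x / 50` of the integers `n ≤ x` have an even number of
partitions. (The best bound in the problem file is `0.069 √x log log x`, Bellaïche and Nicolas.)

Method. Let `M = 4 ^ k`, `m = (M - 1) / 3` and let `D = q ∏ (1 - q ^ n) ^ 24` modulo 2. Modulo 2, the
sum of the `p (n - M g_j)` over the generalised pentagonal numbers `g_j` is the coefficient of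
`q ^ (8 n + m)` in `D ^ m`. The Hecke operator `T_3` satisfies
`T_3 ^ (2 ^ (k - 1) - 1) D ^ m = 0` modulo 2 (nilpotency; proved with the modular equation
`D(q) ^ 4 + D(q) D(q ^ 3) + D(q ^ 3) ^ 4 = 0` and an induction on base 4 digits), and
`T_3 ^ (2 ^ s - 1) = T_{3 ^ (2 ^ s - 1)}` modulo 2. So the coefficient vanishes when `8 n + m` is
exactly divisible by `3 ^ (2 ^ (k - 1) - 1)`. If the number of `j` with `M g_j ≤ n` is odd, then one of
the `p (n - M g_j)` is even. The congruence in `j` modulo a power of 3 has one solution, so each even
value is counted few times, and `3 ^ (2 ^ (k - 1))` may be as large as a constant times `√(x / M)`,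
which gives `√(x M)` even values with `√M = 2 ^ k` of the order of `log x`.
-/

namespace Pool.Agent.Results.MP_ebc808_nt.EvenValues

open Pool.Agent.H397R2.PP in
theorem result (x : ℕ) (hx : 2 ≤ x) :
    Real.sqrt x * Real.log x / 50 ≤
      (((Finset.range (x + 1)).filter
        (fun n => Even (Fintype.card (Nat.Partition n)))).card : ℝ) :=
  even_values_of (fun k m n hm => partition_identity k m n hm)
    (fun k m r hk hm hr => coeff_vanish_of modular_equation k m r hk hm hr) x hx

end Pool.Agent.Results.MP_ebc808_nt.EvenValues
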