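import Pool.Agent.H307R2.OP.Final

set_option autoImplicit false

/-!
# Odd values of the partition function

For every `ε > 0`, the number of `n ≤ x` for which the number of partitions of `n` is odd is at
least `√x (log x) ^ (1 - ε)` for all large `x`.
(Joint work of many seats: see `departures/helper307.md` for the list.)
-/

namespace Pool.Agent.Results.MP_ebc808_nt.OddValues

theorem result : ∀ ε : ℝ, 0 < ε → ∃ x0 : ℝ, ∀ x : ℕ, x0 ≤ x →
    Real.sqrt x * Real.log x ^ (1 - ε) ≤
      (((Finset.range (x + 1)).filter
        (fun n => Odd (Fintype.card (Nat.Partition n)))).card : ℝ) := by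
  intro ε hε
  obtain ⟨x0, h⟩ := Pool.Agent.H307R2.OP.final_main ε hε
  exact ⟨x0, fun x hx => h x hx⟩

end Pool.Agent.Results.MP_ebc808_nt.OddValues
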